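import Mathlib
import Pool.Agent.R813.EQ.Main

set_option autoImplicit false

/-!
The pair `(x, y ^ k x ^ m y ^ l)` in the free group on `x`, `y` is simultaneously asymptotically
equidistributed whenever `m ≠ 0` and `(k, l) ≠ (0, 0)`. This contains the pair
`(x, y ^ 2 x y ^ (-1))`, the simplest case which the problem file calls not settled.
-/

namespace Pool.Agent.Results.MP_45b854_al.OneSyllable

open Pool.Agent.R813.EQ

theorem result (k l m : ℤ) (hm : m ≠ 0) (hkl : k ≠ 0 ∨ l ≠ 0) :
    SAE (![FreeGroup.of 0, FreeGroup.of 1 ^ k * FreeGroup.of 0 ^ m * FreeGroup.of 1 ^ l] :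
      Fin 2 → FreeGroup (Fin 2)) :=
  main k l m hm hkl

end Pool.Agent.Results.MP_45b854_al.OneSyllable
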